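import Pool.Agent.P8H54.BS.Base

/-!
MP_54e702_co, `s = 2`: 2-bases of finite abelian groups of order `n` (in particular of `ℤ_n`) whose
size is close to the trivial lower bound `√(2 n)` must have many popular sums.

`rep A y` is the number of the ordered representations `y = a + b` with `a, b ∈ A`. The pair `(a, c)`
of different elements of `A` is calm (`calm A K`) if all `y` with `y - a ∈ A` and `y - c ∈ A` have at
most `K` representations, that is, if no reflection `x ↦ y - x` with `rep A y > K` moves both `a` and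
`c` into `A`. If more than half of the pairs are calm (the proportion is at least `1 / 2 + ε`), in
particular if all elements have at most `K` representations, then `|A| > c √ n` for large `n` with an
explicit constant `c > √ 2` which depends on `K` and `ε` only.

Proof. In a 2-basis all elements but `O(|A|)` have at least two representations, so that the sum of
`max (rep A y - 2) 0` is at most `|A|² - 2 n + O(|A|)`. The calm pairs have `|calm|² / n` coincidences
`a - c = a' - c'` (Cauchy-Schwarz); each of them, except the trivial ones, is a coincidence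
`a + c' = a' + c` of the sums at an element with at most `K` representations, and there are at most
`K (|A|² - 2 n + O(|A|)) + |A|` such coincidences.
-/

set_option autoImplicit false

open scoped Pointwise
open Finset

namespace Pool.Agent.Results.MP_54e702_co.CalmPairs

open Pool.Agent.P8H54.BS

theorem asymp (K : ℕ) (ε : ℝ) (hε : 0 < ε) (hε1 : ε ≤ 1 / 2) : ∃ N : ℕ,
    ∀ (G : Type) [AddCommGroup G] [Fintype G] [DecidableEq G] (A : Finset G),
      N ≤ Fintype.card G → (∀ g : G, ∃ h : ℕ, h ≤ 2 ∧ g ∈ h • A) →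
      (1 / 2 + ε) * (A.card : ℝ) ^ 2 ≤ (calm A K).card →
      √(2 + ε / (4 * K + 4)) * √(Fintype.card G : ℝ) < A.card := by
  set η : ℝ := ε / (4 * K + 4) with hη
  have hK0 : (0 : ℝ) ≤ K := Nat.cast_nonneg K
  have hη0 : 0 < η := by positivity
  have hη3 : η * (4 * K + 4) = ε := by rw [hη]; field_simp
  have hη1 : η ≤ 1 := by nlinarith
  have hη2 : K * η ≤ ε / 4 := by nlinarith
  set T0 : ℝ := 1 + 5 * (1 + 2 * ε) / ε + 4 * (10 * K + 2) / ε with hT0
  refine ⟨⌈T0 ^ 2⌉₊ + 1, ?_⟩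
  intro G _ _ _ A hN hA hx
  set n : ℝ := (Fintype.card G : ℝ) with hn
  set m : ℝ := (A.card : ℝ) with hm
  set x : ℝ := ((calm A K).card : ℝ) with hxd
  set t : ℝ := √n with ht
  have hn0 : 0 ≤ n := Nat.cast_nonneg _
  have hm0 : 0 ≤ m := Nat.cast_nonneg _
  have hT1 : 5 * (1 + 2 * ε) / ε ≤ T0 := by
    have : 0 ≤ 4 * (10 * K + 2) / ε := by positivity
    linarith
  have hT2 : 4 * (10 * K + 2) / ε ≤ T0 := by
    have : 0 ≤ 5 * (1 + 2 * ε) / ε := by positivity
    linarith
  have hT3 : 1 ≤ T0 := by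
    have : 0 ≤ 5 * (1 + 2 * ε) / ε := by positivity
    have : 0 ≤ 4 * (10 * K + 2) / ε := by positivity
    linarith
  have htT : T0 ≤ t := by
    rw [ht]
    apply Real.le_sqrt_of_sq_le
    have h1 : T0 ^ 2 ≤ (⌈T0 ^ 2⌉₊ : ℝ) := Nat.le_ceil _
    have h2 : ((⌈T0 ^ 2⌉₊ + 1 : ℕ) : ℝ) ≤ n := by rw [hn]; exact_mod_cast hN
    push_cast at h2
    linarith
  have ht1 : 1 ≤ t := hT3.trans htT
  have htn : t * t = n := Real.mul_self_sqrt hn0
  by_contra hcon
  push Not at hcon
  have hc2 : √(2 + η) ≤ 2 := by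
    rw [Real.sqrt_le_left (by norm_num)]
    linarith
  have hm2 : m ≤ 2 * t := hcon.trans (mul_le_mul_of_nonneg_right hc2 (by linarith))
  have hmm : m ^ 2 ≤ (2 + η) * n := by
    have h1 : m ^ 2 ≤ (√(2 + η) * t) ^ 2 := pow_le_pow_left₀ hm0 hcon 2
    rwa [mul_pow, Real.sq_sqrt (by linarith), ht, Real.sq_sqrt hn0] at h1
  have hmain := main hA K
  have hexc : 0 ≤ m ^ 2 + 4 * m + 2 - 2 * n :=
    (sum_nonneg fun y _ => le_max_right _ _).trans (excess hA)
  have ha : (1 + 2 * ε) * (4 * t + 1) ≤ ε * n := by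
    have h1 : 5 * (1 + 2 * ε) ≤ t * ε := by
      have := hT1.trans htT
      rwa [div_le_iff₀ hε] at this
    rw [← htn]
    nlinarith
  have hb : K * (8 * t + 2) + 2 * t ≤ ε / 4 * n := by
    have h1 : 4 * (10 * K + 2) ≤ t * ε := by
      have := hT2.trans htT
      rwa [div_le_iff₀ hε] at this
    rw [← htn]
    nlinarith
  have hx1 : (1 + ε) * n ≤ x := by
    have h1 : (1 / 2 + ε) * (2 * n - 4 * m - 2) ≤ (1 / 2 + ε) * m ^ 2 :=
      mul_le_mul_of_nonneg_left (by linarith) (by linarith)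
    have h2 : (1 + 2 * ε) * (2 * m + 1) ≤ (1 + 2 * ε) * (4 * t + 1) :=
      mul_le_mul_of_nonneg_left (by linarith) (by linarith)
    nlinarith
  have hsum : K * (m ^ 2 + 4 * m + 2 - 2 * n) + m ≤ ε / 2 * n := by
    have h1 : K * (m ^ 2 + 4 * m + 2 - 2 * n) ≤ K * (η * n + (8 * t + 2)) :=
      mul_le_mul_of_nonneg_left (by linarith) hK0
    have h2 : K * η * n ≤ ε / 4 * n := mul_le_mul_of_nonneg_right hη2 hn0
    nlinarith
  have hn1 : 0 < n := by rw [← htn]; nlinarith
  have h3 : x ^ 2 ≤ n * (x + ε / 2 * n) :=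
    hmain.trans (mul_le_mul_of_nonneg_left (by linarith) hn0)
  have h4 : (1 + ε) * n * (ε * n) ≤ x * (x - n) :=
    mul_le_mul hx1 (by linarith) (by positivity) (by nlinarith)
  have h5 : 0 < ε * (n * n) := by positivity
  nlinarith

theorem calm_of_le {G : Type} [AddCommGroup G] [DecidableEq G] {A : Finset G} {K : ℕ}
    (h : ∀ y, rep A y ≤ K) : calm A K = A.offDiag := by
  ext p
  rw [mem_calm, mem_offDiag]
  constructor
  · rintro ⟨⟨h1, h2⟩, h3, -⟩
    exact ⟨h1, h2, h3⟩
  · rintro ⟨h1, h2, h3⟩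
    exact ⟨⟨h1, h2⟩, h3, fun y _ _ => h y⟩

/-- Let `G` be a finite abelian group of order `n` and `A` a 2-basis of `G` with `m` elements.
(1) For all `K`, with `x = |calm A K|`: `x² ≤ n (x + K (m² + 4 m + 2 - 2 n) + m)`.
(2) For every `K` and `0 < ε ≤ 1 / 2`: `m > √(2 + ε / (4 K + 4)) √ n` for all large `n`, all `G` and all
2-bases `A` with at least `(1 / 2 + ε) m²` calm pairs.
(3) For every `K`: `m > √(2 + 1 / (16 K + 16)) √ n` for all large `n`, all `G` and all 2-bases
`A` for which all elements of `G` have at most `K` representations. -/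
theorem result :
    (∀ (G : Type) [AddCommGroup G] [Fintype G] [DecidableEq G] (A : Finset G),
      (∀ g : G, ∃ h : ℕ, h ≤ 2 ∧ g ∈ h • A) → ∀ K : ℕ,
      ((calm A K).card : ℝ) ^ 2 ≤ (Fintype.card G : ℝ) * ((calm A K).card +
        K * ((A.card : ℝ) ^ 2 + 4 * A.card + 2 - 2 * (Fintype.card G : ℝ)) + A.card)) ∧
    (∀ (K : ℕ) (ε : ℝ), 0 < ε → ε ≤ 1 / 2 → ∃ N : ℕ,
      ∀ (G : Type) [AddCommGroup G] [Fintype G] [DecidableEq G] (A : Finset G),
        N ≤ Fintype.card G → (∀ g : G, ∃ h : ℕ, h ≤ 2 ∧ g ∈ h • A) →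
        (1 / 2 + ε) * (A.card : ℝ) ^ 2 ≤ (calm A K).card →
        √(2 + ε / (4 * K + 4)) * √(Fintype.card G : ℝ) < A.card) ∧
    (∀ K : ℕ, ∃ N : ℕ,
      ∀ (G : Type) [AddCommGroup G] [Fintype G] [DecidableEq G] (A : Finset G),
        N ≤ Fintype.card G → (∀ g : G, ∃ h : ℕ, h ≤ 2 ∧ g ∈ h • A) → (∀ y : G, rep A y ≤ K) →
        √(2 + 1 / (16 * K + 16)) * √(Fintype.card G : ℝ) < A.card) := by
  refine ⟨fun G _ _ _ A hA K => main hA K, asymp, fun K => ?_⟩
  obtain ⟨N, h⟩ := asymp K (1 / 4) (by norm_num) (by norm_num)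
  have e1 : (1 / 4 : ℝ) / (4 * K + 4) = 1 / (16 * K + 16) := by
    have : (0 : ℝ) ≤ K := Nat.cast_nonneg K
    field_simp
    ring
  rw [e1] at h
  refine ⟨N + 18, fun G _ _ _ A hN hA hK => h G A (by omega) hA ?_⟩
  have hexc : 0 ≤ (A.card : ℝ) ^ 2 + 4 * A.card + 2 - 2 * (Fintype.card G : ℝ) :=
    (sum_nonneg fun y _ => le_max_right _ _).trans (excess hA)
  have hN' : ((N + 18 : ℕ) : ℝ) ≤ Fintype.card G := by exact_mod_cast hN
  push_cast at hN'
  have hN0 : (0 : ℝ) ≤ N := Nat.cast_nonneg N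
  have hm4 : 4 ≤ A.card := by
    by_contra hlt
    have h3 : (A.card : ℝ) ≤ 3 := by
      have : A.card ≤ 3 := by omega
      exact_mod_cast this
    have h0 : (0 : ℝ) ≤ A.card := Nat.cast_nonneg _
    nlinarith
  have hm4' : (4 : ℝ) ≤ A.card := by exact_mod_cast hm4
  have hcard : ((calm A K).card : ℝ) = (A.card : ℝ) ^ 2 - A.card := by
    rw [calm_of_le hK, offDiag_card, Nat.cast_sub (Nat.le_mul_self _)]
    push_cast
    ring
  rw [hcard]
  nlinarith

end Pool.Agent.Results.MP_54e702_co.CalmPairs
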